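import Pool.Agent.helper54.MZ.Spec1

/-!
# Project mz: INV, the change of `log RR` does not depend on the path of good orbits
-/

set_option autoImplicit false

open Complex Metric Set Filter Topology MeasureTheory

noncomputable section

namespace MZS

open MPS

theorem INV_norm_om (n j : ℕ) : ‖om n ^ j‖ = 1 := by
  rw [norm_pow]
  have : ‖om n‖ = 1 := by
    unfold om
    have h : 2 * (Real.pi : ℂ) * Complex.I / n = ((2 * Real.pi / n : ℝ) : ℂ) * Complex.I := by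
      push_cast
      ring
    rw [h, Complex.norm_exp_ofReal_mul_I]
  rw [this, one_pow]

/-- logarithms of all factors along one path. -/
theorem INV_logs (hLCU : LCU_stmt) (hSEP : SEP_stmt) (n k : ℕ) [NeZero k] (c : ℂ)
    (b g : ZMod k → ℂ) (i l : ZMod k) (Γ : ℝ → ℕ → ℂ) (hn : 2 ≤ n) (hc : IsCyc n c b)
    (hΓ : GP n c b g i l Γ) : ∃ ℓ : ℕ → ℕ → ℝ → ℂ, ∀ q ∈ Finset.Icc 1 k, ∀ j ∈ Finset.Ico 1 n,
      ContinuousOn (ℓ q j) (Icc 0 3) ∧ ∀ t ∈ Icc (0 : ℝ) 3,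
        Complex.exp (ℓ q j t) = Γ t q - om n ^ j * b (i - (q : ZMod k)) := by
  have hex : ∀ q ∈ Finset.Icc 1 k, ∀ j ∈ Finset.Ico 1 n, ∃ L : ℝ → ℂ,
      ContinuousOn L (Icc 0 3) ∧ ∀ t ∈ Icc (0 : ℝ) 3,
        Complex.exp (L t) = Γ t q - om n ^ j * b (i - (q : ZMod k)) := by
    intro q hq j hj
    rw [Finset.mem_Icc] at hq
    have hcyc : GO n c b g (fun q => b (i - (q : ZMod k))) := Or.inr ⟨i, fun q _ => rfl⟩
    refine hLCU.2 0 3 (fun t => Γ t q - om n ^ j * b (i - (q : ZMod k))) (by norm_num) ?_ ?_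
    · exact (hΓ.cont q hq.2).sub continuousOn_const
    · intro t ht
      have := hSEP n k c b g (Γ t) (fun q => b (i - (q : ZMod k))) hn hc (hΓ.go t ht) hcyc q
        hq.1 hq.2 j hj
      exact sub_ne_zero.2 this
  choose! ℓ hℓ using hex
  exact ⟨ℓ, hℓ⟩

theorem INV_RR (n k : ℕ) [NeZero k] (b : ZMod k → ℂ) (i : ZMod k) (x : ℕ → ℂ)
    (ℓ : ℕ → ℕ → ℂ) (h : ∀ q ∈ Finset.Icc 1 k, ∀ j ∈ Finset.Ico 1 n,
      Complex.exp (ℓ q j) = x q - om n ^ j * b (i - (q : ZMod k))) :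
    Complex.exp (- ∑ q ∈ Finset.Icc 1 k, ∑ j ∈ Finset.Ico 1 n, ℓ q j) = RR n b i x := by
  unfold RR
  rw [Complex.exp_neg, Complex.exp_sum, ← Finset.prod_inv_distrib]
  refine Finset.prod_congr rfl fun q hq => ?_
  rw [Complex.exp_sum, ← Finset.prod_inv_distrib]
  refine Finset.prod_congr rfl fun j hj => ?_
  rw [h q hq j hj]

theorem INV (hLCU : LCU_stmt) (hWND2 : WND2_stmt) (hSEP : SEP_stmt) : INV_stmt := by
  intro n k _ c b g i l Γ Γ' L L' hn hc hΓ hΓ' hL hL' he he'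
  obtain ⟨ℓ, hℓ⟩ := INV_logs hLCU hSEP n k c b g i l Γ hn hc hΓ
  obtain ⟨ℓ', hℓ'⟩ := INV_logs hLCU hSEP n k c b g i l Γ' hn hc hΓ'
  have h03 : (0 : ℝ) ≤ 3 := by norm_num
  have hm0 : (0 : ℝ) ∈ Icc (0 : ℝ) 3 := ⟨le_refl _, h03⟩
  have hm3 : (3 : ℝ) ∈ Icc (0 : ℝ) 3 := ⟨h03, le_refl _⟩
  have hsame : ∀ q ∈ Finset.Icc 1 k, ∀ j ∈ Finset.Ico 1 n,
      ℓ q j 3 - ℓ q j 0 = ℓ' q j 3 - ℓ' q j 0 := by
    intro q hq j hj
    have hq' := Finset.mem_Icc.1 hq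
    refine hWND2 0 3 (fun t => Γ t q) (fun t => Γ' t q) (ℓ q j) (ℓ' q j) (om n ^ j) h03
      (hΓ.cont q hq'.2) (hΓ'.cont q hq'.2) ?_ ?_ (INV_norm_om n j) ?_ (hℓ q hq j hj).1
      (hℓ' q hq j hj).1 ?_ ?_
    · show Γ 0 q = Γ' 0 q
      rw [hΓ.left q hq'.2, hΓ'.left q hq'.2]
    · show Γ 3 q = Γ' 3 q
      rw [hΓ.right q hq'.2, hΓ'.right q hq'.2]
    · intro t ht t' ht'
      exact ⟨hSEP n k c b g _ _ hn hc (hΓ.go t ht) (hΓ.go t' ht') q hq'.1 hq'.2 j hj,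
        hSEP n k c b g _ _ hn hc (hΓ.go t ht) (hΓ'.go t' ht') q hq'.1 hq'.2 j hj,
        hSEP n k c b g _ _ hn hc (hΓ'.go t ht) (hΓ.go t' ht') q hq'.1 hq'.2 j hj,
        hSEP n k c b g _ _ hn hc (hΓ'.go t ht) (hΓ'.go t' ht') q hq'.1 hq'.2 j hj⟩
    · intro t ht
      show Complex.exp (ℓ q j t) = Γ t q - om n ^ j * Γ 0 q
      rw [(hℓ q hq j hj).2 t ht, hΓ.left q hq'.2]
    · intro t ht
      show Complex.exp (ℓ' q j t) = Γ' t q - om n ^ j * Γ' 0 q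
      rw [(hℓ' q hq j hj).2 t ht, hΓ'.left q hq'.2]
  have hchange : ∀ (Γ₀ : ℝ → ℕ → ℂ) (L₀ : ℝ → ℂ) (m : ℕ → ℕ → ℝ → ℂ),
      ContinuousOn L₀ (Icc 0 3) → (∀ t ∈ Icc (0 : ℝ) 3, Complex.exp (L₀ t) = RR n b i (Γ₀ t)) →
      (∀ q ∈ Finset.Icc 1 k, ∀ j ∈ Finset.Ico 1 n, ContinuousOn (m q j) (Icc 0 3) ∧
        ∀ t ∈ Icc (0 : ℝ) 3, Complex.exp (m q j t) = Γ₀ t q - om n ^ j * b (i - (q : ZMod k))) →
      L₀ 3 - L₀ 0 = - ∑ q ∈ Finset.Icc 1 k, ∑ j ∈ Finset.Ico 1 n, (m q j 3 - m q j 0) := by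
    intro Γ₀ L₀ m hL₀ he₀ hm
    have h1 := hLCU.1 0 3 (fun t => RR n b i (Γ₀ t)) L₀
      (fun t => - ∑ q ∈ Finset.Icc 1 k, ∑ j ∈ Finset.Ico 1 n, m q j t) h03 hL₀ ?_ he₀ ?_
    · rw [h1]
      show (- ∑ q ∈ Finset.Icc 1 k, ∑ j ∈ Finset.Ico 1 n, m q j 3) -
        (- ∑ q ∈ Finset.Icc 1 k, ∑ j ∈ Finset.Ico 1 n, m q j 0) = _
      simp only [Finset.sum_sub_distrib]
      ring
    · refine ContinuousOn.neg (continuousOn_finsetSum _ fun q hq =>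
        continuousOn_finsetSum _ fun j hj => (hm q hq j hj).1)
    · intro t ht
      exact INV_RR n k b i (Γ₀ t) (fun q j => m q j t) fun q hq j hj => (hm q hq j hj).2 t ht
  rw [hchange Γ L ℓ hL he hℓ, hchange Γ' L' ℓ' hL' he' hℓ']
  congr 1
  refine Finset.sum_congr rfl fun q hq => Finset.sum_congr rfl fun j hj => ?_
  exact hsame q hq j hj

end MZS
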